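import Pool.Agent.H8.Sel.UpperV
import Pool.Agent.H8.Sel.Sound3

/-!
# Assembly: lower bound from a closed table, upper bound of Hadian and Sobel
-/

namespace Pool.Agent.Sel

open Pool.Agent.H8.Sel

theorem win_upper {t n k : ℕ} (ht : 2 ≤ t) (htn : t ≤ n) (hk : n + 2 ≤ 2 ^ k + t) :
    Win t (Finset.univ : Finset (Fin n)) (fun _ => 0) emp (n - t + (t - 1) * k) := by
  obtain ⟨T, h1, h2, h3⟩ := hadian_sobel (n := n) ht htn hk
  refine (exists_tree_iff t n _).1 ⟨T.toC h1, ?_, ?_⟩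
  · intro y hy
    rw [DT.run_toC]
    exact h3 y hy trivial
  · intro y _
    exact (DT.cost_toC y T h1).trans h2

/-- If the fluid start with `F` half units and budget `7` is lost, then
`V_4(n) = n - 4 + 3 k` for `F 2^(k-4) ≤ 2 n` and `n ≤ 2^k + 2`. -/
theorem fourth_of_table {T : Tr} {N F : ℕ} (h : Chk2 T N 1 (N + 1)) (hN : 1 ≤ N)
    (hs : T.find 1 = some ⟨0, 0, 0, F, 4, 7 + 64⟩) {k n : ℕ} (hk : 4 ≤ k) (hn : 4 ≤ n)
    (h1 : F * 2 ^ k ≤ 32 * n) (h2 : n ≤ 2 ^ k + 2) : V 4 n = n - 4 + 3 * k := by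
  apply le_antisymm
  · exact V_upper (by norm_num) hn (by omega)
  · have h3 : F * 2 ^ (k - 4) ≤ 2 * n := by
      have h4 : 2 ^ k = 2 ^ (k - 4) * 16 := by
        rw [show (16 : ℕ) = 2 ^ 4 by norm_num, ← pow_add]
        congr 1
        omega
      rw [h4] at h1
      nlinarith
    have h5 := table_lower2 h hN (t := 4) hs (by norm_num) (n := n) (by omega) h3
      (win_upper (k := k) (by norm_num) hn (by omega))
    omega

end Pool.Agent.Sel
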