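import Pool.Agent.H24.Sel.Basic

/-!
# The fluid game: abstract states and their realisations in the real weighted selection game
-/

set_option linter.unusedSectionVars false

namespace Pool.Agent.Sel

open Finset

variable {ι : Type*} [DecidableEq ι]

/-- The additive payoff. -/
def sw (v : ι → ℕ) (T : Finset ι) : ℕ := ∑ x ∈ T, v x

theorem Win.lift_token {t : ℕ} {X : Finset ι} {v : ι → ℕ} {R : ι → ι → Prop} {b : ℕ}
    (h : Win t X (sw v) R b) (hSO : SO R) {u x : ι} (hu : u ∈ X) (hmin : ∀ a ∈ X, ¬ R a u)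
    (hcard : t ≤ (X.erase u).card) (hx : x ∈ X) (hux : R u x)
    (hab : ∀ z ∈ X, R u z → z = x ∨ R x z) :
    Win t (X.erase u) (sw (Function.update v x (v x + 1))) R b := by
  have hxu : x ≠ u := by
    rintro rfl
    exact hSO.irr _ hux
  refine (h.lift u hu hSO hmin hcard).mono_f _ hSO ?_
  intro T hT
  by_cases hxT : x ∈ T
  · have h1 : above X R u ⊆ T := by
      intro z hz
      rw [mem_above] at hz
      rcases hab z hz.1 hz.2 with rfl | h2
      · exact hxT
      · refine hT.up x hxT z (mem_erase.2 ⟨?_, hz.1⟩) h2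
        rintro rfl
        exact hSO.irr _ hz.2
    have h2 : sw (Function.update v x (v x + 1)) T = sw v T + 1 := by
      unfold sw
      rw [← Finset.add_sum_erase T _ hxT, ← Finset.add_sum_erase T v hxT]
      rw [Function.update_self]
      have : ∑ y ∈ T.erase x, Function.update v x (v x + 1) y = ∑ y ∈ T.erase x, v y := by
        refine Finset.sum_congr rfl fun y hy => ?_
        rw [Function.update_of_ne (mem_erase.1 hy).1]
      rw [this]
      omega
    rw [h2, if_pos h1]
  · have h2 : sw (Function.update v x (v x + 1)) T = sw v T := by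
      unfold sw
      refine Finset.sum_congr rfl fun y hy => ?_
      rw [Function.update_of_ne]
      rintro rfl
      exact hxT hy
    rw [h2]
    exact Nat.le_add_right _ _

theorem Win.lift_root {t : ℕ} {X : Finset ι} {f : Finset ι → ℕ} {R : ι → ι → Prop} {b : ℕ}
    (h : Win t X f R b) (hSO : SO R) {u : ι} (hu : u ∈ X) (hmin : ∀ a ∈ X, ¬ R a u)
    (hcard : t ≤ (X.erase u).card) (hmax : ∀ a ∈ X, ¬ R u a) :
    1 ≤ b ∧ Win t (X.erase u) f R (b - 1) := by
  refine (h.lift u hu hSO hmin hcard).unshift (k := 1) ?_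
  intro T
  have : above X R u ⊆ T := by
    intro z hz
    rw [mem_above] at hz
    exact absurd hz.2 (hmax z hz.1)
  rw [if_pos this]

theorem Win.lift_free {t : ℕ} {X : Finset ι} {f : Finset ι → ℕ} {R : ι → ι → Prop} {b : ℕ}
    (h : Win t X f R b) (hSO : SO R) {u : ι} (hu : u ∈ X) (hmin : ∀ a ∈ X, ¬ R a u)
    (hcard : t ≤ (X.erase u).card) : Win t (X.erase u) f R b :=
  (h.lift u hu hSO hmin hcard).mono_f _ hSO (fun _ _ => Nat.le_add_right _ _)

/-- In a nonempty finite set there is a minimal element. -/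
theorem exists_min {R : ι → ι → Prop} (hSO : SO R) (D : Finset ι) (hD : D.Nonempty) :
    ∃ u ∈ D, ∀ a ∈ D, ¬ R a u := by
  classical
  obtain ⟨u, hu, hmin⟩ := Finset.exists_min_image D (fun u => (D.filter (fun a => R a u)).card) hD
  refine ⟨u, hu, fun a ha hau => ?_⟩
  have h1 := hmin a ha
  have h2 : (D.filter (fun z => R z a)) ⊂ (D.filter (fun z => R z u)) := by
    rw [Finset.ssubset_iff_of_subset]
    · exact ⟨a, by simp [ha, hau], by simp [hSO.irr a]⟩
    · intro z hz
      simp only [mem_filter] at hz ⊢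
      exact ⟨hz.1, hSO.tr _ _ _ hz.2 hau⟩
  exact absurd (Finset.card_lt_card h2) (not_lt.2 h1)

/-- Down-sets can be deleted. -/
theorem Win.drop_set {t : ℕ} {f : Finset ι → ℕ} {R : ι → ι → Prop} {b : ℕ} (hSO : SO R) :
    ∀ (k : ℕ) (X D : Finset ι), D.card = k → D ⊆ X → (∀ d ∈ D, ∀ a ∈ X, R a d → a ∈ D) →
      t ≤ (X \ D).card → Win t X f R b → Win t (X \ D) f R b := by
  intro k
  induction k with
  | zero =>
    intro X D hk _ _ _ h
    rw [Finset.card_eq_zero] at hk
    subst hk
    simpa using h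
  | succ k ih =>
    intro X D hk hDX hdown hcard h
    have hne : D.Nonempty := by
      rw [← Finset.card_pos]
      omega
    obtain ⟨u, hu, hmin⟩ := exists_min hSO D hne
    have huX := hDX hu
    have h1 : Win t (X.erase u) f R b := by
      refine h.lift_free hSO huX ?_ ?_
      · intro a ha hau
        exact hmin a (hdown u hu a ha hau) hau
      · refine hcard.trans (Finset.card_le_card ?_)
        intro z hz
        rw [mem_sdiff] at hz
        refine mem_erase.2 ⟨?_, hz.1⟩
        rintro rfl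
        exact hz.2 hu
    have heq : X.erase u \ D.erase u = X \ D := by
      ext z
      simp only [mem_sdiff, mem_erase]
      constructor
      · rintro ⟨⟨h1, h2⟩, h3⟩
        exact ⟨h2, fun h4 => h3 ⟨h1, h4⟩⟩
      · rintro ⟨h1, h2⟩
        refine ⟨⟨?_, h1⟩, fun h3 => h2 h3.2⟩
        rintro rfl
        exact h2 hu
    have := ih (X.erase u) (D.erase u) (by rw [Finset.card_erase_of_mem hu]; omega)
      (Finset.erase_subset_erase _ hDX) ?_ (by rw [heq]; exact hcard) h1
    · rw [heq] at this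
      exact this
    · intro d hd a ha had
      rw [mem_erase] at hd ha ⊢
      exact ⟨ha.1, hdown d hd.2 a ha.2 had⟩

/-- Abstract states of the fluid game: solids `S` with strict order `rel` and weights `w`, fluid `F`
(in half units), `t - 1` elements of the top set to be found, budget `b`. -/
structure AS where
  S : Finset ℕ
  rel : ℕ → ℕ → Prop
  w : ℕ → ℕ
  F : ℕ
  t : ℕ
  b : ℤ

/-- Realisations: `φ` maps the solids into `X`, all other elements are lights. -/
structure Rz (j : ℕ) (X : Finset ι) (R : ι → ι → Prop) (v : ι → ℕ) (e : AS) (φ : ℕ → ι) :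
    Prop where
  so : SO R
  inj : ∀ a ∈ e.S, ∀ b ∈ e.S, φ a = φ b → a = b
  mem : ∀ a ∈ e.S, φ a ∈ X
  rel : ∀ a ∈ e.S, ∀ b ∈ e.S, (R (φ a) (φ b) ↔ e.rel a b)
  lt1 : ∀ l ∈ X \ e.S.image φ, ∀ x ∈ X, ¬ R l x
  lt2 : ∀ l ∈ X \ e.S.image φ, ∀ x ∈ X, ¬ R x l
  hw : ∀ a ∈ e.S, j + e.w a ≤ v (φ a)
  mass : e.F * 2 ^ j ≤ 2 * ∑ l ∈ X \ e.S.image φ, 2 ^ (min (v l) j)

/-- `RW ι j B e`: some realisation of the abstract state `e` is a win for the algorithm with real
budget `B`, where `B` is at most the budget described by `e`. -/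
def RW (ι : Type*) [DecidableEq ι] (j B : ℕ) (e : AS) : Prop :=
  ∃ (X : Finset ι) (R : ι → ι → Prop) (v : ι → ℕ) (φ : ℕ → ι), Rz j X R v e φ ∧
    Win e.t X (sw v) R B ∧ (B : ℤ) ≤ ((X \ e.S.image φ).card : ℤ) + ((e.t : ℤ) - 1) * j + e.b

/-- There are enough elements. -/
def Big (e : AS) : Prop := e.t ≤ e.S.card + (e.F + 1) / 2

theorem Rz.card_le {j : ℕ} {X : Finset ι} {R : ι → ι → Prop} {v : ι → ℕ} {e : AS} {φ : ℕ → ι}
    (h : Rz j X R v e φ) : e.S.card + (e.F + 1) / 2 ≤ X.card := by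
  have h1 : (e.S.image φ).card = e.S.card := by
    refine Finset.card_image_of_injOn ?_
    intro a ha b hb hab
    exact h.inj a (by simpa using ha) b (by simpa using hb) hab
  have h2 : e.S.image φ ⊆ X := by
    intro z hz
    rw [mem_image] at hz
    obtain ⟨a, ha, rfl⟩ := hz
    exact h.mem a ha
  have h3 : (X \ e.S.image φ).card = X.card - e.S.card := by
    rw [Finset.card_sdiff_of_subset h2, h1]
  have h4 : e.S.card ≤ X.card := by
    rw [← h1]
    exact Finset.card_le_card h2
  have h5 : ∑ l ∈ X \ e.S.image φ, 2 ^ (min (v l) j) ≤ (X \ e.S.image φ).card * 2 ^ j := by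
    rw [← smul_eq_mul]
    refine Finset.sum_le_card_nsmul _ _ _ ?_
    intro l _
    exact Nat.pow_le_pow_right (by norm_num) (min_le_right _ _)
  have h6 := h.mass
  have h7 : e.F * 2 ^ j ≤ (2 * (X \ e.S.image φ).card) * 2 ^ j := by
    calc e.F * 2 ^ j ≤ 2 * ∑ l ∈ X \ e.S.image φ, 2 ^ (min (v l) j) := h6
      _ ≤ 2 * ((X \ e.S.image φ).card * 2 ^ j) := Nat.mul_le_mul_left 2 h5
      _ = _ := by ring
  have h8 : e.F ≤ 2 * (X \ e.S.image φ).card := Nat.le_of_mul_le_mul_right h7 (by positivity)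
  omega

theorem Rz.image_sub {j : ℕ} {X : Finset ι} {R : ι → ι → Prop} {v : ι → ℕ} {e : AS} {φ : ℕ → ι}
    (h : Rz j X R v e φ) : e.S.image φ ⊆ X := by
  intro z hz
  rw [mem_image] at hz
  obtain ⟨a, ha, rfl⟩ := hz
  exact h.mem a ha

/-- Monotonicity of realisations in the weights and the fluid. -/
theorem Rz.mono {j : ℕ} {X : Finset ι} {R : ι → ι → Prop} {v v' : ι → ℕ} {e e' : AS} {φ : ℕ → ι}
    (h : Rz j X R v e φ) (hS : e'.S = e.S) (hrel : ∀ a ∈ e.S, ∀ b ∈ e.S, (e.rel a b ↔ e'.rel a b))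
    (hw : ∀ a ∈ e.S, j + e'.w a ≤ v' (φ a)) (hv : ∀ l ∈ X \ e.S.image φ, v l ≤ v' l)
    (hF : e'.F ≤ e.F) : Rz j X R v' e' φ := by
  refine ⟨h.so, ?_, ?_, ?_, ?_, ?_, ?_, ?_⟩
  · rw [hS]; exact h.inj
  · rw [hS]; exact h.mem
  · rw [hS]
    intro a ha b hb
    rw [h.rel a ha b hb, hrel a ha b hb]
  · rw [hS]; exact h.lt1
  · rw [hS]; exact h.lt2
  · rw [hS]; exact hw
  · rw [hS]
    calc e'.F * 2 ^ j ≤ e.F * 2 ^ j := Nat.mul_le_mul_right _ hF
      _ ≤ _ := h.mass
      _ ≤ _ := by
        refine Nat.mul_le_mul_left 2 (Finset.sum_le_sum fun l hl => ?_)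
        exact Nat.pow_le_pow_right (by norm_num) (min_le_min_right _ (hv l hl))

/-- The relation with the index `k` isolated. -/
def iso (rel : ℕ → ℕ → Prop) (k : ℕ) : ℕ → ℕ → Prop := fun a b => a ≠ k ∧ b ≠ k ∧ rel a b

/-- A new isolated solid of weight `wt`. -/
def AS.addEl (e : AS) (k wt : ℕ) : AS :=
  { e with S := insert k e.S, rel := iso e.rel k, w := Function.update e.w k wt, F := e.F - 2 }

theorem image_addEl {e : AS} {k wt : ℕ} {φ : ℕ → ι} {l : ι} (hk : k ∉ e.S) :
    (e.addEl k wt).S.image (Function.update φ k l) = insert l (e.S.image φ) := by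
  show (insert k e.S).image _ = _
  rw [Finset.image_insert, Function.update_self]
  congr 1
  refine Finset.image_congr ?_
  intro a ha
  rw [Function.update_of_ne]
  rintro rfl
  exact hk (by simpa using ha)

/-- A light of weight at least `j` becomes a solid. -/
theorem Rz.sol {j : ℕ} {X : Finset ι} {R : ι → ι → Prop} {v : ι → ℕ} {e : AS} {φ : ℕ → ι}
    (h : Rz j X R v e φ) {l : ι} (hl : l ∈ X \ e.S.image φ) {k wt : ℕ} (hk : k ∉ e.S)
    (hwt : j + wt ≤ v l) : Rz j X R v (e.addEl k wt) (Function.update φ k l) := by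
  have hlX : l ∈ X := (mem_sdiff.1 hl).1
  have hlS : l ∉ e.S.image φ := (mem_sdiff.1 hl).2
  have hne : ∀ a ∈ e.S, φ a ≠ l := by
    rintro a ha rfl
    exact hlS (mem_image_of_mem φ ha)
  have hka : ∀ a ∈ e.S, a ≠ k := by
    rintro a ha rfl
    exact hk ha
  have hup : ∀ a ∈ e.S, Function.update φ k l a = φ a := fun a ha =>
    Function.update_of_ne (hka a ha) _ _
  have hsub : ∀ z ∈ X \ (e.addEl k wt).S.image (Function.update φ k l),
      z ∈ X \ e.S.image φ := by
    intro z hz
    rw [image_addEl hk] at hz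
    rw [mem_sdiff] at hz ⊢
    exact ⟨hz.1, fun h2 => hz.2 (mem_insert_of_mem h2)⟩
  refine ⟨h.so, ?_, ?_, ?_, ?_, ?_, ?_, ?_⟩
  · intro a ha b hb hab
    change a ∈ insert k e.S at ha
    change b ∈ insert k e.S at hb
    rw [mem_insert] at ha hb
    rcases ha with rfl | ha
    · rcases hb with rfl | hb
      · rfl
      · rw [Function.update_self, hup b hb] at hab
        exact absurd hab.symm (hne b hb)
    · rcases hb with rfl | hb
      · rw [Function.update_self, hup a ha] at hab
        exact absurd hab (hne a ha)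
      · rw [hup a ha, hup b hb] at hab
        exact h.inj a ha b hb hab
  · intro a ha
    change a ∈ insert k e.S at ha
    rw [mem_insert] at ha
    rcases ha with rfl | ha
    · rw [Function.update_self]; exact hlX
    · rw [hup a ha]; exact h.mem a ha
  · intro a ha b hb
    change a ∈ insert k e.S at ha
    change b ∈ insert k e.S at hb
    rw [mem_insert] at ha hb
    show _ ↔ a ≠ k ∧ b ≠ k ∧ e.rel a b
    rcases ha with rfl | ha
    · rw [Function.update_self]
      constructor
      · intro h2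
        exfalso
        rcases hb with rfl | hb
        · rw [Function.update_self] at h2
          exact h.so.irr _ h2
        · rw [hup b hb] at h2
          exact h.lt1 l hl _ (h.mem b hb) h2
      · rintro ⟨h2, _⟩
        exact absurd rfl h2
    · rcases hb with rfl | hb
      · rw [Function.update_self, hup a ha]
        constructor
        · intro h2
          exact absurd h2 (h.lt2 l hl _ (h.mem a ha))
        · rintro ⟨_, h2, _⟩
          exact absurd rfl h2
      · rw [hup a ha, hup b hb, h.rel a ha b hb]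
        exact ⟨fun h2 => ⟨hka a ha, hka b hb, h2⟩, fun h2 => h2.2.2⟩
  · intro z hz
    exact h.lt1 z (hsub z hz)
  · intro z hz
    exact h.lt2 z (hsub z hz)
  · intro a ha
    change a ∈ insert k e.S at ha
    rw [mem_insert] at ha
    show j + Function.update e.w k wt a ≤ _
    rcases ha with rfl | ha
    · rw [Function.update_self, Function.update_self]; exact hwt
    · rw [Function.update_of_ne (hka a ha), hup a ha]; exact h.hw a ha
  · rw [image_addEl hk]
    have h1 : X \ insert l (e.S.image φ) = (X \ e.S.image φ).erase l := by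
      ext z
      simp only [mem_sdiff, mem_insert, mem_erase, not_or]
      tauto
    rw [h1]
    have h2 := Finset.add_sum_erase (X \ e.S.image φ) (fun l => 2 ^ (min (v l) j)) hl
    have h3 : 2 ^ (min (v l) j) = 2 ^ j := by
      rw [min_eq_right]
      omega
    have h4 := h.mass
    show (e.F - 2) * 2 ^ j ≤ _
    rw [Nat.sub_mul]
    simp only [h3] at h2
    omega

theorem card_light_addEl {j : ℕ} {X : Finset ι} {R : ι → ι → Prop} {v : ι → ℕ} {e : AS}
    {φ : ℕ → ι} (_h : Rz j X R v e φ) {l : ι} (hl : l ∈ X \ e.S.image φ) {k wt : ℕ}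
    (hk : k ∉ e.S) :
    ((X \ (e.addEl k wt).S.image (Function.update φ k l)).card : ℤ) =
      ((X \ e.S.image φ).card : ℤ) - 1 := by
  rw [image_addEl hk]
  have h1 : X \ insert l (e.S.image φ) = (X \ e.S.image φ).erase l := by
    ext z
    simp only [mem_sdiff, mem_insert, mem_erase, not_or]
    tauto
  rw [h1, Finset.card_erase_of_mem hl]
  have : 0 < (X \ e.S.image φ).card := Finset.card_pos.2 ⟨l, hl⟩
  omega

/-- Adding a relation between two solids. -/
theorem Rz.addrel {j : ℕ} {X : Finset ι} {R : ι → ι → Prop} {v : ι → ℕ} {e : AS} {φ : ℕ → ι}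
    (h : Rz j X R v e φ) {a b : ℕ} (ha : a ∈ e.S) (hb : b ∈ e.S) (hab : a ≠ b)
    (hba : ¬ e.rel b a) (e' : AS) (hS : e'.S = e.S) (hrel : e'.rel = add e.rel a b)
    (hw : e'.w = e.w) (hF : e'.F ≤ e.F) : Rz j X (add R (φ a) (φ b)) v e' φ := by
  have h1 : φ a ≠ φ b := fun h2 => hab (h.inj a ha b hb h2)
  refine ⟨h.so.add h1 (fun h2 => hba ((h.rel b hb a ha).1 h2)), ?_, ?_, ?_, ?_, ?_, ?_, ?_⟩
  · rw [hS]; exact h.inj
  · rw [hS]; exact h.mem
  · rw [hS, hrel]
    intro c hc d hd
    unfold add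
    rw [h.rel c hc d hd, h.rel c hc a ha, h.rel b hb d hd]
    have h3 : φ c = φ a ↔ c = a := ⟨h.inj c hc a ha, fun h => by rw [h]⟩
    have h4 : φ d = φ b ↔ d = b := ⟨h.inj d hd b hb, fun h => by rw [h]⟩
    rw [h3, h4]
  · rw [hS]
    intro l hl x hx h2
    rcases h2 with h2 | ⟨h2, _⟩
    · exact h.lt1 l hl x hx h2
    · rcases h2 with rfl | h2
      · exact (mem_sdiff.1 hl).2 (mem_image_of_mem φ ha)
      · exact h.lt1 l hl _ (h.mem a ha) h2
  · rw [hS]
    intro l hl x hx h2
    rcases h2 with h2 | ⟨_, h2⟩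
    · exact h.lt2 l hl x hx h2
    · rcases h2 with rfl | h2
      · exact (mem_sdiff.1 hl).2 (mem_image_of_mem φ hb)
      · exact h.lt2 l hl _ (h.mem b hb) h2
  · rw [hS, hw]; exact h.hw
  · rw [hS]
    exact (Nat.mul_le_mul_right _ hF).trans h.mass

/-- Deleting a light of weight less than `j`. -/
theorem Rz.dropLight {j : ℕ} {X : Finset ι} {R : ι → ι → Prop} {v : ι → ℕ} {e : AS} {φ : ℕ → ι}
    (h : Rz j X R v e φ) {l : ι} (hl : l ∈ X \ e.S.image φ) (hv : v l < j) (e' : AS)
    (hS : e'.S = e.S) (hrel : e'.rel = e.rel) (hw : e'.w = e.w) (hF : e'.F ≤ e.F - 1) :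
    Rz j (X.erase l) R v e' φ := by
  have hlX : l ∈ X := (mem_sdiff.1 hl).1
  have hlS : l ∉ e.S.image φ := (mem_sdiff.1 hl).2
  have h1 : X.erase l \ e.S.image φ = (X \ e.S.image φ).erase l := by
    ext z
    simp only [mem_sdiff, mem_erase]
    tauto
  refine ⟨h.so, ?_, ?_, ?_, ?_, ?_, ?_, ?_⟩
  · rw [hS]; exact h.inj
  · rw [hS]
    intro a ha
    refine mem_erase.2 ⟨?_, h.mem a ha⟩
    rintro rfl
    exact hlS (mem_image_of_mem φ ha)
  · rw [hS, hrel]; exact h.rel
  · rw [hS, h1]
    intro z hz x hx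
    exact h.lt1 z (mem_erase.1 hz).2 x (mem_erase.1 hx).2
  · rw [hS, h1]
    intro z hz x hx
    exact h.lt2 z (mem_erase.1 hz).2 x (mem_erase.1 hx).2
  · rw [hS, hw]; exact h.hw
  · rw [hS, h1]
    have h2 := Finset.add_sum_erase (X \ e.S.image φ) (fun l => 2 ^ (min (v l) j)) hl
    have h3 : 2 * 2 ^ (min (v l) j) ≤ 2 ^ j := by
      rw [min_eq_left hv.le, ← pow_succ']
      exact Nat.pow_le_pow_right (by norm_num) hv
    have h4 := h.mass
    have h5 : e'.F * 2 ^ j ≤ (e.F - 1) * 2 ^ j := Nat.mul_le_mul_right _ hF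
    rw [Nat.sub_mul, one_mul] at h5
    omega

theorem card_light_drop {X : Finset ι} {e : AS} {φ : ℕ → ι} {l : ι}
    (hl : l ∈ X \ e.S.image φ) :
    ((X.erase l \ e.S.image φ).card : ℤ) = ((X \ e.S.image φ).card : ℤ) - 1 := by
  have h1 : X.erase l \ e.S.image φ = (X \ e.S.image φ).erase l := by
    ext z
    simp only [mem_sdiff, mem_erase]
    tauto
  rw [h1, Finset.card_erase_of_mem hl]
  have : 0 < (X \ e.S.image φ).card := Finset.card_pos.2 ⟨l, hl⟩
  omega

/-- Merging two lights. -/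
theorem Rz.merge {j : ℕ} {X : Finset ι} {R : ι → ι → Prop} {v : ι → ℕ} {e : AS} {φ : ℕ → ι}
    (h : Rz j X R v e φ) {l x : ι} (hl : l ∈ X \ e.S.image φ) (hx : x ∈ X \ e.S.image φ)
    (hlx : l ≠ x) (hv : v l ≤ v x) (hvj : v x < j) :
    Rz j (X.erase l) R (Function.update v x (v x + 1)) e φ := by
  have hlX : l ∈ X := (mem_sdiff.1 hl).1
  have hlS : l ∉ e.S.image φ := (mem_sdiff.1 hl).2
  have h1 : X.erase l \ e.S.image φ = (X \ e.S.image φ).erase l := by
    ext z
    simp only [mem_sdiff, mem_erase]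
    tauto
  refine ⟨h.so, h.inj, ?_, h.rel, ?_, ?_, ?_, ?_⟩
  · intro a ha
    refine mem_erase.2 ⟨?_, h.mem a ha⟩
    rintro rfl
    exact hlS (mem_image_of_mem φ ha)
  · rw [h1]
    intro z hz x hx
    exact h.lt1 z (mem_erase.1 hz).2 x (mem_erase.1 hx).2
  · rw [h1]
    intro z hz x hx
    exact h.lt2 z (mem_erase.1 hz).2 x (mem_erase.1 hx).2
  · intro a ha
    rw [Function.update_of_ne]
    · exact h.hw a ha
    · rintro rfl
      exact (mem_sdiff.1 hx).2 (mem_image_of_mem φ ha)
  · rw [h1]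
    have hx2 : x ∈ (X \ e.S.image φ).erase l := mem_erase.2 ⟨Ne.symm hlx, hx⟩
    have h2 := Finset.add_sum_erase (X \ e.S.image φ) (fun l => 2 ^ (min (v l) j)) hl
    have h3 := Finset.add_sum_erase _ (fun l => 2 ^ (min (v l) j)) hx2
    have h4 := Finset.add_sum_erase _
      (fun l => 2 ^ (min (Function.update v x (v x + 1) l) j)) hx2
    have h5 : ∑ z ∈ ((X \ e.S.image φ).erase l).erase x,
        2 ^ (min (Function.update v x (v x + 1) z) j) =
        ∑ z ∈ ((X \ e.S.image φ).erase l).erase x, 2 ^ (min (v z) j) := by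
      refine Finset.sum_congr rfl fun z hz => ?_
      rw [Function.update_of_ne (mem_erase.1 hz).1]
    simp only [Function.update_self] at h4
    rw [h5] at h4
    have h6 : 2 ^ (min (v x + 1) j) = 2 * 2 ^ (v x) := by
      rw [min_eq_left (by omega), pow_succ']
    have h7 : 2 ^ (min (v x) j) = 2 ^ (v x) := by rw [min_eq_left hvj.le]
    have h8 : 2 ^ (min (v l) j) ≤ 2 ^ (v x) :=
      Nat.pow_le_pow_right (by norm_num) ((min_le_left _ _).trans hv)
    have h9 := h.mass
    rw [h6] at h4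
    rw [h7] at h3
    omega

end Pool.Agent.Sel
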