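import Pool.Agent.H14.Sel.Step
import Pool.Agent.H24.Sel.Tree

/-!
# A set of abstract states closed under the moves of the fluid game is lost for the algorithm
-/

set_option linter.unusedSectionVars false

namespace Pool.Agent.Sel

open Finset

/-- The abstract state is finished within its budget. -/
def Resolved (e : AS) : Prop :=
  ∃ c ∈ e.S, ∃ T ⊆ e.S, c ∉ T ∧ T.card + 1 = e.t ∧ (∀ x ∈ T, e.rel c x) ∧
    (∀ x ∈ e.S, x ≠ c → x ∉ T → e.rel x c) ∧ ((∑ x ∈ T, e.w x : ℕ) : ℤ) ≤ e.b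

section Steps

variable {ι : Type*} [DecidableEq ι]
variable {j B : ℕ} {X : Finset ι} {R : ι → ι → Prop} {v : ι → ℕ} {e : AS} {φ : ℕ → ι}

theorem step_done (h : Rz j X R v e φ) (ht : 2 ≤ e.t) {c : ι} {T : Finset ι} (hc : c ∈ X)
    (hTX : T ⊆ X) (hcT : c ∉ T) (hT : T.card + 1 = e.t) (hR : ∀ x ∈ T, R c x)
    (hD : ∀ x ∈ X, x ≠ c → x ∉ T → R x c) (hf : sw v T ≤ B)
    (hB : (B : ℤ) ≤ ((X \ e.S.image φ).card : ℤ) + ((e.t : ℤ) - 1) * j + e.b) :
    e.F = 0 ∧ Resolved e := by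
  classical
  have hTne : T.Nonempty := by
    rw [← Finset.card_pos]
    omega
  obtain ⟨x0, hx0⟩ := hTne
  have hXS : ∀ z ∈ X, z ∈ e.S.image φ := by
    intro z hz
    by_contra hzS
    have hzL : z ∈ X \ e.S.image φ := mem_sdiff.2 ⟨hz, hzS⟩
    by_cases hzc : z = c
    · subst hzc
      exact h.lt1 z hzL x0 (hTX hx0) (hR x0 hx0)
    · by_cases hzT : z ∈ T
      · exact h.lt2 z hzL c hc (hR z hzT)
      · exact h.lt1 z hzL c hc (hD z hz hzc hzT)
  have hL : (X \ e.S.image φ).card = 0 := by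
    rw [Finset.card_eq_zero, Finset.sdiff_eq_empty_iff_subset]
    exact hXS
  obtain ⟨c0, hc0, rfl⟩ := mem_image.1 (hXS c hc)
  set T0 : Finset ℕ := e.S.filter (fun a => φ a ∈ T) with hT0
  have hTT : T0.image φ = T := by
    ext z
    rw [mem_image]
    constructor
    · rintro ⟨a, ha, rfl⟩
      exact (mem_filter.1 ha).2
    · intro hz
      obtain ⟨a, ha, rfl⟩ := mem_image.1 (hXS z (hTX hz))
      exact ⟨a, mem_filter.2 ⟨ha, hz⟩, rfl⟩
  have hinj : ∀ a ∈ T0, ∀ b ∈ T0, φ a = φ b → a = b := fun a ha b hb =>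
    h.inj a (mem_filter.1 ha).1 b (mem_filter.1 hb).1
  have hcard : T0.card = T.card := by
    rw [← hTT]
    refine (Finset.card_image_of_injOn ?_).symm
    intro a ha b hb hab
    exact hinj a (by simpa using ha) b (by simpa using hb) hab
  have hF0 : e.F = 0 := by
    have h1 := h.mass
    rw [Finset.card_eq_zero.1 hL, Finset.sum_empty, mul_zero] at h1
    have h2 : 0 < 2 ^ j := Nat.pow_pos (by norm_num)
    rcases Nat.eq_zero_or_pos e.F with h3 | h3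
    · exact h3
    · exact absurd (Nat.mul_pos h3 h2) (by omega)
  refine ⟨hF0, c0, hc0, T0, Finset.filter_subset _ _, ?_, by omega, ?_, ?_, ?_⟩
  · intro h1
    exact hcT (mem_filter.1 h1).2
  · intro x hx
    have hx' := mem_filter.1 hx
    exact (h.rel c0 hc0 x hx'.1).1 (hR _ hx'.2)
  · intro x hx hxc hxT
    refine (h.rel x hx c0 hc0).1 (hD _ (h.mem x hx) ?_ ?_)
    · exact fun h1 => hxc (h.inj x hx c0 hc0 h1)
    · exact fun h1 => hxT (mem_filter.2 ⟨hx, h1⟩)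
  · have h1 : sw v T = ∑ a ∈ T0, v (φ a) := by
      unfold sw
      rw [← hTT, Finset.sum_image]
      exact hinj
    have h2 : ∑ a ∈ T0, (j + e.w a) ≤ ∑ a ∈ T0, v (φ a) :=
      Finset.sum_le_sum fun a ha => h.hw a (mem_filter.1 ha).1
    rw [Finset.sum_add_distrib, Finset.sum_const, smul_eq_mul] at h2
    have h3 : ((T0.card * j + ∑ a ∈ T0, e.w a : ℕ) : ℤ) ≤ (B : ℤ) := by
      exact_mod_cast h2.trans (h1 ▸ hf)
    have h4 : (T0.card : ℤ) = (e.t : ℤ) - 1 := by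
      have : T0.card + 1 = e.t := by omega
      omega
    rw [hL] at hB
    push_cast at h3 hB ⊢
    rw [h4] at h3
    linarith

theorem step_ask (h : Rz j X R v e φ) (hBig : Big e) {x y : ι} (hx : x ∈ X) (hy : y ∈ X)
    (hxy : x ≠ y) (h1 : Win e.t X (sw v) (add R x y) B) (h2 : Win e.t X (sw v) (add R y x) B)
    (hB : ((B : ℤ) + 1) ≤ ((X \ e.S.image φ).card : ℤ) + ((e.t : ℤ) - 1) * j + e.b) :
    RW ι j B e ∨
    (∃ a ∈ e.S, ∃ b ∈ e.S, a ≠ b ∧ ¬ e.rel a b ∧ ¬ e.rel b a ∧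
      RW ι j B (e.rq a b) ∧ RW ι j B (e.rq b a)) ∨
    ((X \ e.S.image φ).Nonempty ∧
      ((∃ q ∈ e.S, ∀ k ∉ e.S, RW ι j B (e.n1 k q) ∧ RW ι j B (e.n2 k q)) ∨
       (∃ q ∈ e.S, (Big (e.l1 q) → RW ι j B (e.l1 q)) ∧ (Big (e.l2 q) → RW ι j B (e.l2 q))) ∨
       (∀ k ∉ e.S, ∀ k' ∉ e.S, k ≠ k' → RW ι j B (e.nn k k')) ∨
       (∀ k ∉ e.S, Big (e.ln k) → RW ι j B (e.ln k)))) := by
  by_cases hxS : x ∈ e.S.image φ
  · obtain ⟨a, ha, rfl⟩ := mem_image.1 hxS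
    by_cases hyS : y ∈ e.S.image φ
    · obtain ⟨b, hb, rfl⟩ := mem_image.1 hyS
      have hab : a ≠ b := fun h3 => hxy (by rw [h3])
      by_cases hr1 : e.rel a b
      · left
        exact ⟨X, R, v, φ, h, h1.of_add h.so.tr ((h.rel a ha b hb).2 hr1), by linarith⟩
      · by_cases hr2 : e.rel b a
        · left
          exact ⟨X, R, v, φ, h, h2.of_add h.so.tr ((h.rel b hb a ha).2 hr2), by linarith⟩
        · right; left
          refine ⟨a, ha, b, hb, hab, hr1, hr2, ?_, ?_⟩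
          · refine ⟨X, _, v, φ, h.addrel ha hb hab hr2 (e.rq a b) rfl rfl rfl le_rfl, h1, ?_⟩
            change (B : ℤ) ≤ ((X \ e.S.image φ).card : ℤ) + ((e.t : ℤ) - 1) * j + (e.b - 1)
            linarith
          · refine ⟨X, _, v, φ, h.addrel hb ha (Ne.symm hab) hr1 (e.rq b a) rfl rfl rfl le_rfl,
              h2, ?_⟩
            change (B : ℤ) ≤ ((X \ e.S.image φ).card : ℤ) + ((e.t : ℤ) - 1) * j + (e.b - 1)
            linarith
    · have hyL : y ∈ X \ e.S.image φ := mem_sdiff.2 ⟨hy, hyS⟩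
      right; right
      refine ⟨⟨y, hyL⟩, ?_⟩
      rcases step_LS h hyL ha h2 h1 hB with h3 | h3
      · exact Or.inl ⟨a, ha, h3⟩
      · exact Or.inr (Or.inl ⟨a, ha, h3⟩)
  · have hxL : x ∈ X \ e.S.image φ := mem_sdiff.2 ⟨hx, hxS⟩
    by_cases hyS : y ∈ e.S.image φ
    · obtain ⟨b, hb, rfl⟩ := mem_image.1 hyS
      right; right
      refine ⟨⟨x, hxL⟩, ?_⟩
      rcases step_LS h hxL hb h1 h2 hB with h3 | h3
      · exact Or.inl ⟨b, hb, h3⟩
      · exact Or.inr (Or.inl ⟨b, hb, h3⟩)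
    · have hyL : y ∈ X \ e.S.image φ := mem_sdiff.2 ⟨hy, hyS⟩
      rcases le_total (v y) (v x) with hv | hv
      · rcases step_LL h hxL hyL hxy hv hBig h2 hB with h3 | h3 | h3
        · exact Or.inl h3
        · exact Or.inr (Or.inr ⟨⟨x, hxL⟩, Or.inr (Or.inr (Or.inl h3))⟩)
        · exact Or.inr (Or.inr ⟨⟨x, hxL⟩, Or.inr (Or.inr (Or.inr h3))⟩)
      · rcases step_LL h hyL hxL (Ne.symm hxy) hv hBig h1 hB with h3 | h3 | h3
        · exact Or.inl h3
        · exact Or.inr (Or.inr ⟨⟨x, hxL⟩, Or.inr (Or.inr (Or.inl h3))⟩)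
        · exact Or.inr (Or.inr ⟨⟨x, hxL⟩, Or.inr (Or.inr (Or.inr h3))⟩)

/-- Without fluid in the abstract state all lights can be deleted. -/
theorem no_lights (hBig : Big e) (hF : e.F = 0) : ∀ (n : ℕ) (X : Finset ι) (B : ℕ),
    (X \ e.S.image φ).card = n → Rz j X R v e φ → Win e.t X (sw v) R B →
    (B : ℤ) ≤ ((X \ e.S.image φ).card : ℤ) + ((e.t : ℤ) - 1) * j + e.b →
    ∃ (X' : Finset ι) (B' : ℕ), B' ≤ B ∧ X' \ e.S.image φ = ∅ ∧ Rz j X' R v e φ ∧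
      Win e.t X' (sw v) R B' ∧
      (B' : ℤ) ≤ ((X' \ e.S.image φ).card : ℤ) + ((e.t : ℤ) - 1) * j + e.b := by
  intro n
  induction n with
  | zero =>
    intro X B hn h hW hB
    exact ⟨X, B, le_rfl, Finset.card_eq_zero.1 hn, h, hW, hB⟩
  | succ n ih =>
    intro X B hn h hW hB
    obtain ⟨l, hl⟩ : (X \ e.S.image φ).Nonempty := by
      rw [← Finset.card_pos]
      omega
    have hlX : l ∈ X := (mem_sdiff.1 hl).1
    have himg : X.erase l \ e.S.image φ = (X \ e.S.image φ).erase l := by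
      ext z
      simp only [mem_sdiff, mem_erase]
      tauto
    have hz : Rz j (X.erase l) R v e φ := by
      refine ⟨h.so, h.inj, ?_, h.rel, ?_, ?_, h.hw, ?_⟩
      · intro a ha
        refine mem_erase.2 ⟨?_, h.mem a ha⟩
        rintro rfl
        exact (mem_sdiff.1 hl).2 (mem_image_of_mem φ ha)
      · rw [himg]
        intro z hz x hx
        exact h.lt1 z (mem_erase.1 hz).2 x (mem_erase.1 hx).2
      · rw [himg]
        intro z hz x hx
        exact h.lt2 z (mem_erase.1 hz).2 x (mem_erase.1 hx).2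
      · rw [hF, zero_mul]
        exact Nat.zero_le _
    obtain ⟨hb1, hW'⟩ := hW.lift_root h.so hlX (h.lt2 l hl) (le_trans hBig hz.card_le) (h.lt1 l hl)
    have hc := card_light_drop (e := e) (φ := φ) hl
    obtain ⟨X', B', h1, h2, h3, h4, h5⟩ := ih (X.erase l) (B - 1) (by
      rw [himg, Finset.card_erase_of_mem hl]
      omega) hz hW' (by
      rw [hc]
      push_cast [hb1]
      linarith)
    exact ⟨X', B', by omega, h2, h3, h4, h5⟩

end Steps

/-- `Ok 𝒯 r`: the adversary can pass from `r` to a state of the table. -/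
def Ok (𝒯 : Set AS) (r : AS) : Prop :=
  Big r ∧ ∀ (ι : Type) [DecidableEq ι] (j B : ℕ), RW ι j B r → ∃ e ∈ 𝒯, ∃ B' ≤ B, RW ι j B' e

/-- Inner states of the table. -/
structure NodeOK (𝒯 : Set AS) (e : AS) : Prop where
  big : Big e
  t2 : 2 ≤ e.t
  nres : e.F = 0 → ¬ Resolved e
  hQ : ∀ a ∈ e.S, ∀ b ∈ e.S, a ≠ b → ¬ e.rel a b → ¬ e.rel b a →
    Ok 𝒯 (e.rq a b) ∨ Ok 𝒯 (e.rq b a)
  hN : e.F ≠ 0 → ∀ q ∈ e.S, ∃ k, k ∉ e.S ∧ (Ok 𝒯 (e.n1 k q) ∨ Ok 𝒯 (e.n2 k q))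
  hL : e.F ≠ 0 → ∀ q ∈ e.S, Ok 𝒯 (e.l1 q) ∨ Ok 𝒯 (e.l2 q)
  hNN : e.F ≠ 0 → ∃ k k', k ∉ e.S ∧ k' ∉ e.S ∧ k ≠ k' ∧ Ok 𝒯 (e.nn k k')
  hLN : e.F ≠ 0 → ∃ k, k ∉ e.S ∧ Ok 𝒯 (e.ln k)

/-- **Closed tables are lost for the algorithm.** -/
theorem closed_main (𝒯 : Set AS)
    (hT : ∀ e ∈ 𝒯, (∀ (ι : Type) [DecidableEq ι] (j B : ℕ), ¬ RW ι j B e) ∨ NodeOK 𝒯 e)
    (ι : Type) [DecidableEq ι] : ∀ (B j : ℕ), ∀ e ∈ 𝒯, ¬ RW ι j B e := by
  intro B
  induction B using Nat.strong_induction_on with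
  | _ B ih =>
  intro j e he hRW
  rcases hT e he with h0 | hN
  · exact h0 ι j B hRW
  have use : ∀ B' < B, ∀ r, Ok 𝒯 r → ¬ RW ι j B' r := by
    intro B' hB' r hr hr2
    obtain ⟨e', he', B'', hB'', h3⟩ := hr.2 ι j B' hr2
    exact ih B'' (by omega) j e' he' h3
  -- without fluid we may assume that there are no lights
  obtain ⟨X, R, v, φ, hz, hW, hB, hL0⟩ : ∃ (X : Finset ι) (R : ι → ι → Prop) (v : ι → ℕ)
      (φ : ℕ → ι), Rz j X R v e φ ∧ (∃ B' ≤ B, Win e.t X (sw v) R B' ∧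
        (B' : ℤ) ≤ ((X \ e.S.image φ).card : ℤ) + ((e.t : ℤ) - 1) * j + e.b) ∧ True ∧
        (e.F = 0 → X \ e.S.image φ = ∅) := by
    obtain ⟨X, R, v, φ, hz, hW, hB⟩ := hRW
    by_cases hF : e.F = 0
    · obtain ⟨X', B', h1, h2, h3, h4, h5⟩ := no_lights hN.big hF _ X B rfl hz hW hB
      exact ⟨X', R, v, φ, h3, ⟨B', h1, h4, h5⟩, trivial, fun _ => h2⟩
    · exact ⟨X, R, v, φ, hz, ⟨B, le_rfl, hW, hB⟩, trivial, fun h => absurd h hF⟩
  obtain ⟨B', hB'B, hW, hB'⟩ := hW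
  cases hW with
  | done c T hc hTX hcT hTc hR hD hf =>
    have h5 := step_done hz hN.t2 hc hTX hcT hTc hR hD hf hB'
    exact hN.nres h5.1 h5.2
  | ask x y hx hy hxy h1 h2 =>
    rename_i B1
    have hlt : B1 < B := by omega
    have hB1 : ((B1 : ℤ) + 1) ≤ ((X \ e.S.image φ).card : ℤ) + ((e.t : ℤ) - 1) * j + e.b := by
      exact_mod_cast hB'
    rcases step_ask hz hN.big hx hy hxy h1 h2 hB1 with h3 | h3 | ⟨hne, h3⟩
    · exact ih B1 hlt j e he h3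
    · obtain ⟨a, ha, b, hb, hab, hr1, hr2, h4, h5⟩ := h3
      rcases hN.hQ a ha b hb hab hr1 hr2 with h6 | h6
      · exact use B1 hlt _ h6 h4
      · exact use B1 hlt _ h6 h5
    · have hF : e.F ≠ 0 := by
        intro hF
        rw [hL0 hF] at hne
        exact Finset.not_nonempty_empty hne
      rcases h3 with ⟨q, hq, h4⟩ | ⟨q, hq, h4, h5⟩ | h4 | h4
      · obtain ⟨k, hk, h6⟩ := hN.hN hF q hq
        rcases h6 with h6 | h6
        · exact use B1 hlt _ h6 (h4 k hk).1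
        · exact use B1 hlt _ h6 (h4 k hk).2
      · rcases hN.hL hF q hq with h6 | h6
        · exact use B1 hlt _ h6 (h4 h6.1)
        · exact use B1 hlt _ h6 (h5 h6.1)
      · obtain ⟨k, k', hk, hk', hkk, h6⟩ := hN.hNN hF
        exact use B1 hlt _ h6 (h4 k hk k' hk' hkk)
      · obtain ⟨k, hk, h6⟩ := hN.hLN hF
        exact use B1 hlt _ h6 (h4 k hk h6.1)

/-- The start: `N` isolated elements of weight `0`. -/
def AS.start (F t : ℕ) (b : ℤ) : AS := ⟨∅, fun _ _ => False, fun _ => 0, F, t, b⟩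

theorem start_RW {N j B F t : ℕ} {b : ℤ} (hN : 0 < N) (hF : F * 2 ^ j ≤ 2 * N)
    (h : Win t (Finset.univ : Finset (Fin N)) (fun _ => 0) emp B)
    (hB : (B : ℤ) ≤ N + ((t : ℤ) - 1) * j + b) : RW (Fin N) j B (AS.start F t b) := by
  have : Nonempty (Fin N) := ⟨⟨0, hN⟩⟩
  refine ⟨Finset.univ, emp, fun _ => 0, fun _ => Classical.arbitrary _, ?_, ?_, ?_⟩
  · refine ⟨so_emp, ?_, ?_, ?_, ?_, ?_, ?_, ?_⟩
    · intro a ha
      exact absurd ha (Finset.notMem_empty a)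
    · intro a ha
      exact absurd ha (Finset.notMem_empty a)
    · intro a ha
      exact absurd ha (Finset.notMem_empty a)
    · intro _ _ _ _ h
      exact h
    · intro _ _ _ _ h
      exact h
    · intro a ha
      exact absurd ha (Finset.notMem_empty a)
    · simpa [AS.start] using hF
  · have h1 : (fun _ : Finset (Fin N) => 0) = sw (fun _ => 0) := by
      funext T
      simp [sw]
    rw [h1] at h
    exact h
  · simpa [AS.start] using hB

/-- **Fluid reduction.** -/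
theorem fluid_lower (𝒯 : Set AS)
    (hT : ∀ e ∈ 𝒯, (∀ (ι : Type) [DecidableEq ι] (j B : ℕ), ¬ RW ι j B e) ∨ NodeOK 𝒯 e)
    {F t : ℕ} {b : ℕ} (hs : AS.start F t b ∈ 𝒯) (ht : 1 ≤ t) {N j : ℕ} (hN : 0 < N)
    (hF : F * 2 ^ j ≤ 2 * N) {d' : ℕ}
    (h0 : Win t (Finset.univ : Finset (Fin N)) (fun _ => 0) emp d') :
    N + (t - 1) * j + b + 1 ≤ V t N := by
  refine le_V h0 fun B hB => ?_
  by_contra hlt
  rw [not_le] at hlt
  refine closed_main 𝒯 hT (Fin N) B j _ hs (start_RW hN hF hB ?_)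
  have : B ≤ N + (t - 1) * j + b := by omega
  have h2 : (B : ℤ) ≤ ((N + (t - 1) * j + b : ℕ) : ℤ) := by exact_mod_cast this
  push_cast [ht] at h2
  linarith

end Pool.Agent.Sel
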