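import Pool.Agent.H14.Sel.Fluid

/-!
# One comparison of the real game seen in the fluid game
-/

set_option linter.unusedSectionVars false

namespace Pool.Agent.Sel

open Finset

variable {ι : Type*} [DecidableEq ι]

/-- solid : solid, answer `a < b`. -/
def AS.rq (e : AS) (a b : ℕ) : AS := { e with rel := add e.rel a b, b := e.b - 1 }

/-- unit : solid, the unit element loses. -/
def AS.n1 (e : AS) (k q : ℕ) : AS :=
  { e with S := insert k e.S, rel := add (iso e.rel k) k q, w := Function.update e.w k 0,
           F := e.F - 2 }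

/-- unit : solid, the unit element wins. -/
def AS.n2 (e : AS) (k q : ℕ) : AS :=
  { e with S := insert k e.S, rel := add (iso e.rel k) q k, w := Function.update e.w k 0,
           F := e.F - 2 }

/-- unit : unit. -/
def AS.nn (e : AS) (k k' : ℕ) : AS :=
  { e with S := insert k' (insert k e.S), rel := add (iso (iso e.rel k) k') k k',
           w := Function.update (Function.update e.w k 0) k' 0, F := e.F - 4, b := e.b + 1 }

/-- light : unit, the light one loses. -/
def AS.ln (e : AS) (k : ℕ) : AS :=
  { e with S := insert k e.S, rel := iso e.rel k, w := Function.update e.w k 1, F := e.F - 3,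
           b := e.b + 1 }

/-- light : solid, the light one loses. -/
def AS.l1 (e : AS) (q : ℕ) : AS :=
  { e with w := Function.update e.w q (e.w q + 1), F := e.F - 1 }

open Classical in
/-- light : solid, the light one wins; the solid and everything below it is deleted. -/
noncomputable def AS.l2 (e : AS) (q : ℕ) : AS :=
  { e with S := e.S.filter (fun a => ¬ (a = q ∨ e.rel a q)), b := e.b - 1 }

section LL

variable {j B : ℕ} {X : Finset ι} {R : ι → ι → Prop} {v : ι → ℕ} {e : AS} {φ : ℕ → ι}

/-- The token lifting used for a light `y` which has just lost against the element `x`. -/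
theorem lose_light (h : Rz j X R v e φ) {x y : ι} (hy : y ∈ X \ e.S.image φ) (hx : x ∈ X)
    (hxy : x ≠ y) {t : ℕ} (hcard : t ≤ (X.erase y).card) (hW : Win t X (sw v) (add R y x) B) :
    Win t (X.erase y) (sw (Function.update v x (v x + 1))) R B := by
  have hyX : y ∈ X := (mem_sdiff.1 hy).1
  have hso : SO (add R y x) := h.so.add (Ne.symm hxy) (h.lt2 y hy x hx)
  have h1 := hW.lift_token hso hyX (u := y) (x := x) ?_ hcard hx (add_self R y x) ?_
  · refine h1.mono_R R h.so.tr ?_
    rintro a ha b hb (h2 | ⟨h2, h3⟩)
    · exact h2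
    · rcases h2 with rfl | h2
      · exact absurd rfl (mem_erase.1 ha).1
      · exact absurd h2 (h.lt2 y hy a (mem_erase.1 ha).2)
  · rintro a ha (h2 | ⟨h2, h3⟩)
    · exact h.lt2 y hy a ha h2
    · rcases h3 with h3 | h3
      · exact hxy h3.symm
      · exact h.lt2 y hy x hx h3
  · rintro z hz (h2 | ⟨h2, h3⟩)
    · exact absurd h2 (h.lt1 y hy z hz)
    · rcases h3 with h3 | h3
      · exact Or.inl h3
      · exact Or.inr (Or.inl h3)

theorem step_LL (h : Rz j X R v e φ) {x y : ι} (hx : x ∈ X \ e.S.image φ)
    (hy : y ∈ X \ e.S.image φ) (hxy : x ≠ y) (hv : v y ≤ v x) (hBig : Big e)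
    (hW : Win e.t X (sw v) (add R y x) B)
    (hB : ((B : ℤ) + 1) ≤ ((X \ e.S.image φ).card : ℤ) + ((e.t : ℤ) - 1) * j + e.b) :
    RW ι j B e ∨ (∀ k ∉ e.S, ∀ k' ∉ e.S, k ≠ k' → RW ι j B (e.nn k k')) ∨
      (∀ k ∉ e.S, Big (e.ln k) → RW ι j B (e.ln k)) := by
  have hxX : x ∈ X := (mem_sdiff.1 hx).1
  have hyX : y ∈ X := (mem_sdiff.1 hy).1
  by_cases hvj : v x < j
  · left
    have hz := h.merge hy hx (Ne.symm hxy) hv hvj
    have hc : e.t ≤ (X.erase y).card := hBig.trans hz.card_le
    refine ⟨X.erase y, R, _, φ, hz, lose_light h hy hxX hxy hc hW, ?_⟩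
    rw [card_light_drop hy]
    linarith
  · right
    rw [not_lt] at hvj
    by_cases hvy : v y < j
    · right
      intro k hk hBl
      have h1 : Rz j (X.erase y) R v { e with F := e.F - 1 } φ :=
        h.dropLight hy hvy _ rfl rfl rfl le_rfl
      have himg : X.erase y \ e.S.image φ = (X \ e.S.image φ).erase y := by
        ext z
        simp only [mem_sdiff, mem_erase]
        tauto
      have hx1 : x ∈ X.erase y \ e.S.image φ := by
        rw [himg]
        exact mem_erase.2 ⟨hxy, hx⟩
      have h2 : Rz j (X.erase y) R (Function.update v x (v x + 1)) { e with F := e.F - 1 } φ := by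
        refine h1.mono rfl (fun _ _ _ _ => Iff.rfl) ?_ ?_ le_rfl
        · intro a ha
          rw [Function.update_of_ne]
          · exact h.hw a ha
          · rintro rfl
            exact (mem_sdiff.1 hx).2 (mem_image_of_mem φ ha)
        · intro l _
          by_cases hlx : l = x
          · subst hlx
            rw [Function.update_self]
            omega
          · rw [Function.update_of_ne hlx]
      have h3 := h2.sol (l := x) hx1 (k := k) (wt := 1) hk (by rw [Function.update_self]; omega)
      have hz : Rz j (X.erase y) R (Function.update v x (v x + 1)) (e.ln k)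
          (Function.update φ k x) := by
        refine h3.mono rfl (fun _ _ _ _ => Iff.rfl) h3.hw (fun _ _ => le_rfl) ?_
        show e.F - 3 ≤ e.F - 1 - 2
        omega
      have hc : e.t ≤ (X.erase y).card := le_trans hBl hz.card_le
      refine ⟨X.erase y, R, _, _, hz, lose_light h hy hxX hxy hc hW, ?_⟩
      have h4 := card_light_addEl h2 (l := x) hx1 (k := k) (wt := 1) hk
      have h5 := card_light_drop hy
      change ((X.erase y \ (e.ln k).S.image (Function.update φ k x)).card : ℤ) = _ at h4
      change (B : ℤ) ≤ _ + ((e.t : ℤ) - 1) * j + (e.b + 1)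
      rw [h4]
      change (B : ℤ) ≤ ((X.erase y \ e.S.image φ).card : ℤ) - 1 + ((e.t : ℤ) - 1) * j + (e.b + 1)
      rw [h5]
      linarith
    · left
      rw [not_lt] at hvy
      intro k hk k' hk' hkk
      have h1 := h.sol (l := y) hy (k := k) (wt := 0) hk (by omega)
      have hx1 : x ∈ X \ (e.addEl k 0).S.image (Function.update φ k y) := by
        rw [image_addEl hk]
        rw [mem_sdiff] at hx ⊢
        refine ⟨hx.1, ?_⟩
        rw [mem_insert]
        rintro (h2 | h2)
        · exact hxy h2
        · exact hx.2 h2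
      have hk1 : k' ∉ (e.addEl k 0).S := by
        show k' ∉ insert k e.S
        rw [mem_insert]
        rintro (h2 | h2)
        · exact hkk h2.symm
        · exact hk' h2
      have h2 := h1.sol (l := x) hx1 (k := k') (wt := 0) hk1 (by omega)
      have hkS : k ∈ ((e.addEl k 0).addEl k' 0).S := by
        show k ∈ insert k' (insert k e.S)
        simp
      have hk'S : k' ∈ ((e.addEl k 0).addEl k' 0).S := by
        show k' ∈ insert k' (insert k e.S)
        simp
      have h3 := h2.addrel hkS hk'S hkk (fun h4 => h4.1 rfl) (e.nn k k') rfl rfl rfl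
        (by show e.F - 4 ≤ e.F - 2 - 2; omega)
      have e1 : Function.update (Function.update φ k y) k' x k = y := by
        rw [Function.update_of_ne hkk, Function.update_self]
      have e2 : Function.update (Function.update φ k y) k' x k' = x := by
        rw [Function.update_self]
      rw [e1, e2] at h3
      refine ⟨X, _, _, _, h3, hW, ?_⟩
      have h4 := card_light_addEl h1 (l := x) hx1 (k := k') (wt := 0) hk1
      have h5 := card_light_addEl h (l := y) hy (k := k) (wt := 0) hk
      change (B : ℤ) ≤ ((X \ ((e.addEl k 0).addEl k' 0).S.image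
        (Function.update (Function.update φ k y) k' x)).card : ℤ) + ((e.t : ℤ) - 1) * j + (e.b + 1)
      rw [h4, h5]
      linarith

theorem step_LS (h : Rz j X R v e φ) {x : ι} {q : ℕ} (hx : x ∈ X \ e.S.image φ) (hq : q ∈ e.S)
    (h1 : Win e.t X (sw v) (add R x (φ q)) B) (h2 : Win e.t X (sw v) (add R (φ q) x) B)
    (hB : ((B : ℤ) + 1) ≤ ((X \ e.S.image φ).card : ℤ) + ((e.t : ℤ) - 1) * j + e.b) :
    (∀ k ∉ e.S, RW ι j B (e.n1 k q) ∧ RW ι j B (e.n2 k q)) ∨
      ((Big (e.l1 q) → RW ι j B (e.l1 q)) ∧ (Big (e.l2 q) → RW ι j B (e.l2 q))) := by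
  classical
  have hxX : x ∈ X := (mem_sdiff.1 hx).1
  have hqX := h.mem q hq
  have hxq : φ q ≠ x := by
    rintro rfl
    exact (mem_sdiff.1 hx).2 (mem_image_of_mem φ hq)
  by_cases hvj : j ≤ v x
  · left
    intro k hk
    have h3 := h.sol (l := x) hx (k := k) (wt := 0) hk (by omega)
    have hkq : k ≠ q := by
      rintro rfl
      exact hk hq
    have hkS : k ∈ (e.addEl k 0).S := mem_insert_self _ _
    have hqS : q ∈ (e.addEl k 0).S := mem_insert_of_mem hq
    have e1 : Function.update φ k x k = x := Function.update_self _ _ _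
    have e2 : Function.update φ k x q = φ q := Function.update_of_ne (Ne.symm hkq) _ _
    have h4 := card_light_addEl h (l := x) hx (k := k) (wt := 0) hk
    constructor
    · have h5 := h3.addrel hkS hqS hkq (fun h4 => h4.2.1 rfl) (e.n1 k q) rfl rfl rfl le_rfl
      rw [e1, e2] at h5
      refine ⟨X, _, _, _, h5, h1, ?_⟩
      change (B : ℤ) ≤ ((X \ (e.addEl k 0).S.image
        (Function.update φ k x)).card : ℤ) + ((e.t : ℤ) - 1) * j + e.b
      rw [h4]
      linarith
    · have h5 := h3.addrel hqS hkS (Ne.symm hkq) (fun h4 => h4.1 rfl) (e.n2 k q) rfl rfl rfl le_rfl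
      rw [e1, e2] at h5
      refine ⟨X, _, _, _, h5, h2, ?_⟩
      change (B : ℤ) ≤ ((X \ (e.addEl k 0).S.image
        (Function.update φ k x)).card : ℤ) + ((e.t : ℤ) - 1) * j + e.b
      rw [h4]
      linarith
  · right
    rw [not_le] at hvj
    constructor
    · intro hBig
      have h3 : Rz j (X.erase x) R v { e with F := e.F - 1 } φ :=
        h.dropLight hx hvj _ rfl rfl rfl le_rfl
      have hz : Rz j (X.erase x) R (Function.update v (φ q) (v (φ q) + 1)) (e.l1 q) φ := by
        refine h3.mono rfl (fun _ _ _ _ => Iff.rfl) ?_ ?_ le_rfl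
        · intro a ha
          change j + Function.update e.w q (e.w q + 1) a ≤ _
          have := h.hw a ha
          by_cases haq : a = q
          · subst haq
            rw [Function.update_self, Function.update_self]
            omega
          · rw [Function.update_of_ne haq, Function.update_of_ne]
            · exact this
            · exact fun h5 => haq (h.inj a ha q hq h5)
        · intro l _
          by_cases hlq : l = φ q
          · subst hlq
            rw [Function.update_self]
            omega
          · rw [Function.update_of_ne hlq]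
      have hc : e.t ≤ (X.erase x).card := le_trans hBig hz.card_le
      refine ⟨X.erase x, R, _, φ, hz, lose_light h hx hqX hxq hc h1, ?_⟩
      change (B : ℤ) ≤ ((X.erase x \ e.S.image φ).card : ℤ) + ((e.t : ℤ) - 1) * j + e.b
      rw [card_light_drop hx]
      linarith
    · intro hBig
      set D : Finset ι := (e.S.filter (fun a => a = q ∨ e.rel a q)).image φ with hD
      have hDmem : ∀ z, z ∈ D ↔ ∃ a ∈ e.S, (a = q ∨ e.rel a q) ∧ φ a = z := by
        intro z
        rw [hD, mem_image]
        constructor
        · rintro ⟨a, ha, rfl⟩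
          rw [mem_filter] at ha
          exact ⟨a, ha.1, ha.2, rfl⟩
        · rintro ⟨a, ha, ha2, rfl⟩
          exact ⟨a, mem_filter.2 ⟨ha, ha2⟩, rfl⟩
      have hDX : D ⊆ X := by
        intro z hz
        obtain ⟨a, ha, _, rfl⟩ := (hDmem z).1 hz
        exact h.mem a ha
      have hDR : ∀ z ∈ X, (z = φ q ∨ R z (φ q)) → z ∈ D := by
        rintro z hz hzq
        rw [hDmem]
        rcases hzq with rfl | hzq
        · exact ⟨q, hq, Or.inl rfl, rfl⟩
        · by_cases hzS : z ∈ e.S.image φ
          · rw [mem_image] at hzS
            obtain ⟨a, ha, rfl⟩ := hzS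
            exact ⟨a, ha, Or.inr ((h.rel a ha q hq).1 hzq), rfl⟩
          · exact absurd hzq (h.lt1 z (mem_sdiff.2 ⟨hz, hzS⟩) _ hqX)
      have hRD : ∀ z ∈ D, z = φ q ∨ R z (φ q) := by
        intro z hz
        obtain ⟨a, ha, haq, rfl⟩ := (hDmem z).1 hz
        rcases haq with rfl | haq
        · exact Or.inl rfl
        · exact Or.inr ((h.rel a ha q hq).2 haq)
      have hso : SO (add R (φ q) x) := h.so.add hxq (h.lt1 x hx _ hqX)
      have himg : (X \ D) \ (e.l2 q).S.image φ = X \ e.S.image φ := by
        ext z
        simp only [mem_sdiff]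
        constructor
        · rintro ⟨⟨h3, h4⟩, h5⟩
          refine ⟨h3, fun h6 => ?_⟩
          rw [mem_image] at h6
          obtain ⟨a, ha, rfl⟩ := h6
          by_cases haq : a = q ∨ e.rel a q
          · exact h4 ((hDmem _).2 ⟨a, ha, haq, rfl⟩)
          · exact h5 (mem_image_of_mem φ (mem_filter.2 ⟨ha, haq⟩))
        · rintro ⟨h3, h4⟩
          refine ⟨⟨h3, fun h5 => ?_⟩, fun h5 => ?_⟩
          · obtain ⟨a, ha, _, rfl⟩ := (hDmem z).1 h5
            exact h4 (mem_image_of_mem φ ha)
          · rw [mem_image] at h5
            obtain ⟨a, ha, rfl⟩ := h5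
            exact h4 (mem_image_of_mem φ (mem_filter.1 ha).1)
      have hz : Rz j (X \ D) R v (e.l2 q) φ := by
        refine ⟨h.so, ?_, ?_, ?_, ?_, ?_, ?_, ?_⟩
        · intro a ha b hb
          exact h.inj a (mem_filter.1 ha).1 b (mem_filter.1 hb).1
        · intro a ha
          have ha' := mem_filter.1 ha
          refine mem_sdiff.2 ⟨h.mem a ha'.1, fun h5 => ?_⟩
          obtain ⟨c, hc, hcq, hca⟩ := (hDmem _).1 h5
          have := h.inj c hc a ha'.1 hca
          subst this
          exact ha'.2 hcq
        · intro a ha b hb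
          exact h.rel a (mem_filter.1 ha).1 b (mem_filter.1 hb).1
        · rw [himg]
          intro l hl z hz
          exact h.lt1 l hl z (mem_sdiff.1 hz).1
        · rw [himg]
          intro l hl z hz
          exact h.lt2 l hl z (mem_sdiff.1 hz).1
        · intro a ha
          exact h.hw a (mem_filter.1 ha).1
        · rw [himg]
          exact h.mass
      have hc : e.t ≤ (X \ D).card := le_trans hBig hz.card_le
      have h3 : Win e.t (X \ D) (sw v) (add R (φ q) x) B := by
        refine Win.drop_set hso D.card X D rfl hDX ?_ hc h2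
        intro d hd a ha had
        rcases had with had | ⟨h4, h5⟩
        · refine hDR a ha (Or.inr ?_)
          rcases hRD d hd with rfl | h6
          · exact had
          · exact h.so.tr _ _ _ had h6
        · exact hDR a ha h4
      have h4 : Win e.t (X \ D) (sw v) R B := by
        refine h3.mono_R R h.so.tr ?_
        rintro a ha b hb (h5 | ⟨h5, _⟩)
        · exact h5
        · exact absurd (hDR a (mem_sdiff.1 ha).1 h5) (mem_sdiff.1 ha).2
      refine ⟨X \ D, R, v, φ, hz, h4, ?_⟩
      rw [himg]
      change (B : ℤ) ≤ ((X \ e.S.image φ).card : ℤ) + ((e.t : ℤ) - 1) * j + (e.b - 1)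
      linarith

end LL

end Pool.Agent.Sel
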